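import Pool.Agent.helper36.YB.Spec

/-!
# Project yb, row GPX
-/

set_option autoImplicit false

open Finset
open Pool.Agent.FI Pool.Agent.HK Pool.Agent.BP
open Pool.Agent.CH (nit rgh ll2)
open Pool.Agent.SK (tr0 Th)

noncomputable section

namespace Pool.Agent.YB

theorem GPX_cv (g h : ℕ → ℂ) (hg : CM g) (hh : CM h) (p : ℕ) (hp : p.Prime) :
    cv g h p = g p + h p ∧ cv g h (p * p) = g p * g p + g p * h p + h p * h p := by
  have h1 : ∀ k : ℕ, cv g h (p ^ k) = ∑ i ∈ range (k + 1), g (p ^ i) * h (p ^ k / p ^ i) := by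
    intro k
    unfold cv
    rw [Nat.sum_divisorsAntidiagonal (fun a b => g a * h b), Nat.divisors_prime_pow hp, sum_map]
    rfl
  have hp0 : 0 < p := hp.pos
  constructor
  · have h2 := h1 1
    rw [pow_one] at h2
    rw [h2, sum_range_succ, sum_range_one, pow_zero, pow_one, Nat.div_one, Nat.div_self hp0, hg.2.1, hh.2.1]
    ring
  · have h2 := h1 2
    rw [← sq, h2, sum_range_succ, sum_range_succ, sum_range_one, pow_zero, pow_one, Nat.div_one, Nat.div_self (pow_pos hp0 2),
      hg.2.1, hh.2.1, show p ^ 2 / p = p by rw [sq, Nat.mul_div_cancel _ hp0], sq, hg.2.2.1, hh.2.2.1]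
    ring

theorem GPX (hRSX : RSX_stmt) (hRIX : RIX_stmt) (hTHU : THU_stmt) : GPX_stmt := by
  intro d Ψ hd hΨ g h hg hh hF p hp
  have hMU : MU Ψ := ⟨hΨ.1, hΨ.2.1⟩
  obtain ⟨c1, c2⟩ := GPX_cv g h hg hh p hp
  obtain ⟨r1, r2⟩ := hRIX d Ψ hΨ
  have f1 : rf Ψ p = g p + h p := by rw [hF p hp.one_le, c1]
  have f2 : rf Ψ (p * p) = g p * g p + g p * h p + h p * h p := by
    rw [hF (p * p) (Nat.mul_pos hp.pos hp.pos), c2]
  have key : g p * h p = rf Ψ p ^ 2 - rf Ψ (p * p) := by
    rw [f1, f2]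
    ring
  by_cases hpd : p ∣ d
  · rw [if_pos hpd, key]
    have a1 := (r2 p 1 hp le_rfl).1 (Or.inr hpd)
    have a2 := (r2 p p hp hp.one_le).1 (Or.inr hpd)
    rw [mul_one] at a1
    rw [a1, a2]
    ring
  · rw [if_neg hpd, key]
    have hodd : p = 2 ∨ p % 8 = 1 ∨ p % 8 = 7 ∨ p % 8 = 3 ∨ p % 8 = 5 := by
      rcases hp.eq_two_or_odd with h2 | h2
      · exact Or.inl h2
      · right
        omega
    have h1p : ¬ p ∣ 1 := hp.one_lt.ne' ∘ Nat.dvd_one.mp
    rcases hodd with h2 | h2 | h2 | h2 | h2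
    · have a1 := (r2 p 1 hp le_rfl).1 (Or.inl h2)
      have a2 := (r2 p p hp hp.one_le).1 (Or.inl h2)
      rw [mul_one] at a1
      rw [a1, a2, h2]
      unfold ch8
      norm_num
    all_goals have h8 : p ≠ 2 := by
                intro h
                rw [h] at h2
                norm_num at h2
    · have := Fact.mk hp
      obtain ⟨s, hs⟩ := (ZMod.exists_sq_eq_two_iff h8).mpr (Or.inl h2)
      have hν : (p : ℤ) ∣ (2 * (s.val : ℤ)) ^ 2 - 8 := by
        rw [← ZMod.intCast_zmod_eq_zero_iff_dvd _ p]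
        push_cast
        rw [ZMod.natCast_zmod_val, mul_pow, sq s, ← hs]
        ring
      obtain ⟨z, hz, _⟩ := hTHU p (2 * (s.val : ℤ)) (hp.odd_of_ne_two h8) hν
      have b1 := hRSX Ψ hMU p z hp h8 hz 1 le_rfl
      have b2 := hRSX Ψ hMU p z hp h8 hz p hp.one_le
      rw [mul_one, if_neg h1p, r1, mul_one, sub_zero] at b1
      rw [if_pos (dvd_refl p), Nat.div_self hp.pos, r1] at b2
      rw [b2, b1]
      unfold ch8
      rw [if_pos (Or.inl h2)]
      push_cast
      ring
    · have := Fact.mk hp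
      obtain ⟨s, hs⟩ := (ZMod.exists_sq_eq_two_iff h8).mpr (Or.inr h2)
      have hν : (p : ℤ) ∣ (2 * (s.val : ℤ)) ^ 2 - 8 := by
        rw [← ZMod.intCast_zmod_eq_zero_iff_dvd _ p]
        push_cast
        rw [ZMod.natCast_zmod_val, mul_pow, sq s, ← hs]
        ring
      obtain ⟨z, hz, _⟩ := hTHU p (2 * (s.val : ℤ)) (hp.odd_of_ne_two h8) hν
      have b1 := hRSX Ψ hMU p z hp h8 hz 1 le_rfl
      have b2 := hRSX Ψ hMU p z hp h8 hz p hp.one_le
      rw [mul_one, if_neg h1p, r1, mul_one, sub_zero] at b1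
      rw [if_pos (dvd_refl p), Nat.div_self hp.pos, r1] at b2
      rw [b2, b1]
      unfold ch8
      rw [if_pos (Or.inr h2)]
      push_cast
      ring
    all_goals have a1 := (r2 p 1 hp le_rfl).2 (by first | exact Or.inl h2 | exact Or.inr h2)
              have a2 := (r2 p p hp hp.one_le).2 (by first | exact Or.inl h2 | exact Or.inr h2)
              rw [mul_one, if_neg h1p] at a1
              rw [if_pos (dvd_refl p), Nat.div_self hp.pos, r1] at a2
              rw [a1, a2]
              unfold ch8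
              rw [if_neg (by omega), if_pos (by omega)]
              push_cast
              ring

end Pool.Agent.YB
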